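import Pool.Agent.Lib.MP_887a05_al.Old.NormRelation
import Pool.Agent.Lib.MP_887a05_al.OE.RelAb

/-! Earlier hand-in, now derived from `NormRelation`. -/

namespace Pool.Agent.Lib.MP_887a05_al.Old.AbelianExponent

open Pool.Agent.Shared.WittDefs (v)

universe u

theorem result (F K : Type u) [Field F] [Field K] [Algebra F K] [FiniteDimensional F K]
    [IsAbelianGalois F K] (hchar : (2 : F) ≠ 0) (a e : ℕ) (he : Odd e)
    (h : ∀ σ : K ≃ₐ[F] K, σ ^ (2 ^ a * e) = 1) : v K ≤ v F + (Nat.log 3 e : ℕ) := by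
  let _ : CommGroup (K ≃ₐ[F] K) :=
    { (inferInstance : Group (K ≃ₐ[F] K)) with mul_comm := IsMulCommutative.is_comm.comm }
  obtain ⟨d, hd, k⟩ := RelAb.rel he h
  exact Pool.Agent.Lib.MP_887a05_al.Old.NormRelation.result F K hchar e d he.pos hd k

end Pool.Agent.Lib.MP_887a05_al.Old.AbelianExponent
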