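import Pool.Agent.Results.MP_887a05_al.CubicTowerAll

/-! The statement of the earlier hand-in `CubicTower`, derived from `CubicTowerAll`. -/

namespace Pool.Agent.Lib.MP_887a05_al.Old.CubicTower

open Module
open Pool.Agent.Shared.WittDefs (v)

universe u

theorem result (F K₁ K₂ L K : Type u) [Field F] [Field K₁] [Field K₂] [Field L] [Field K]
    [Algebra F K₁] [Algebra K₁ K₂] [Algebra K₂ L] [IsGalois K₂ L] [Algebra K L]
    (hchar : (2 : F) ≠ 0) (_hv : v F = 0)
    (h₁ : finrank F K₁ = 3) (h₂ : finrank K₁ K₂ = 3) (n : ℕ) (h₃ : finrank K₂ L = 2 ^ n)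
    (h₄ : Odd (finrank K L)) : v K ≤ v F + 1 :=
  Pool.Agent.Results.MP_887a05_al.CubicTowerAll.result F K₁ K₂ L K hchar h₁ h₂ n h₃ h₄

end Pool.Agent.Lib.MP_887a05_al.Old.CubicTower
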