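import Pool.Agent.Lib.MP_887a05_al.FSMain
import Pool.Agent.Lib.MP_887a05_al.FSWitt

namespace Pool.Agent.Lib.MP_887a05_al.Old.FiniteSquareClasses

open Pool.Agent.Shared.WittDefs (v)
open Pool.Agent.Shared.WittRing
open Pool.Agent.Lib.MP_887a05_al.FS

universe u

theorem result (F K : Type u) [Field F] [Field K] [Algebra F K] [FiniteDimensional F K]
    (hchar : (2 : F) ≠ 0) (hfin : (Subgroup.square Kˣ).FiniteIndex) : v K ≤ v F + 1 := by
  have h2 : (2 : K) ≠ 0 := by simpa [map_ofNat] using (map_ne_zero (algebraMap F K)).2 hchar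
  induction hv : v F using ENat.recTopCoe with
  | top => simp
  | coe n =>
    have hF := (pow_eq_bot_iff_iso hchar _).1 ((v_le_iff n).1 hv.le)
    obtain ⟨m, hm⟩ := cov_of_finiteIndex hfin
    have := (pow_eq_bot_iff_iso h2 (n + 1 + 1)).2 fun l hl len => by_contra fun h0 => by
      obtain ⟨l', a, b, c⟩ := main m K F _ m hm (good_sqs h2) hm trivial l hl h0
      exact c (hF l' a (by omega))
    exact_mod_cast (v_le_iff (n + 1)).2 this

end Pool.Agent.Lib.MP_887a05_al.Old.FiniteSquareClasses
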