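import Pool.Agent.Lib.MP_887a05_al.Transfer

/-! Earlier hand-in, now the case `a = 0`, `e = 3` of `AbelianExponent`. -/

namespace Pool.Agent.Lib.MP_887a05_al.Old.MultiCubic

open Module
open Pool.Agent.Shared.WittDefs (v)
open Pool.Agent.Shared.WittRing
open Pool.Agent.Lib.MP_887a05_al

universe u

theorem result (F K : Type u) [Field F] [Field K] [Algebra F K] [FiniteDimensional F K]
    [IsAbelianGalois F K] (hchar : (2 : F) ≠ 0) (h3 : ∀ σ : K ≃ₐ[F] K, σ ^ 3 = 1) :
    v K ≤ v F + 1 := by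
  induction hv : v F using ENat.recTopCoe with
  | top => simp
  | coe n =>
    have hF : fundIdeal F ^ (n + 1) = ⊥ := (v_le_iff n).1 hv.le
    have := pow_eq_bot_of_abelian F hchar 3 (n + 1) (fun M _ _ _ _ h1 h2 => by
      refine pow_succ_eq_bot_of_cubic ?_ hchar hF
      rwa [← IsGalois.card_aut_eq_finrank, ← Nat.card_congr (Equiv.subtypeUnivEquiv h1)])
      _ K rfl h3
    exact_mod_cast (v_le_iff (n + 1)).2 this

end Pool.Agent.Lib.MP_887a05_al.Old.MultiCubic
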