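import Pool.Agent.Results.MP_887a05_al.NormRelationAll

/-! Earlier hand-in, now derived from `NormRelationAll`. -/

namespace Pool.Agent.Lib.MP_887a05_al.Old.NormRelation

open Pool.Agent.Shared.WittDefs (v)

universe u

theorem result (F K : Type u) [Field F] [Field K] [Algebra F K] [FiniteDimensional F K]
    [IsGalois F K] (hchar : (2 : F) ≠ 0) (n d : ℕ) (hn : 1 ≤ n) (hd : Odd d)
    (h : (d : MonoidAlgebra ℤ (K ≃ₐ[F] K)) ∈ TwoSidedIdeal.span
      {x | ∃ V H : Subgroup (K ≃ₐ[F] K), V.index ≤ n ∧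
        Relation.ReflTransGen (fun A B : Subgroup (K ≃ₐ[F] K) => B ≤ A ∧ B.relIndex A = 2) V H ∧
        x = ∑ᶠ σ ∈ H, MonoidAlgebra.of ℤ (K ≃ₐ[F] K) σ}) :
    v K ≤ v F + (Nat.log 3 n : ℕ) :=
  Pool.Agent.Results.MP_887a05_al.NormRelationAll.result F K K hchar n d hn hd h

end Pool.Agent.Lib.MP_887a05_al.Old.NormRelation
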